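import Pool.Agent.Run7.h716.ZW.Defs

/-!
HALF1: solution of `(T - r) F = g` without `tsum`: on the left it is `c a^k / (a - r)`, then recursion.
-/

set_option autoImplicit false

namespace Run7.h109.ZW

open Run7.h716.ZW

noncomputable section

/-- the recursion to the right of `K` -/
def rc (g : ℤ → ℝ) (K : ℤ) (r u0 : ℝ) : ℕ → ℝ
  | 0 => u0
  | n + 1 => g (K + n) + r * rc g K r u0 n

/-- the solution -/
def sol (g : ℤ → ℝ) (K : ℤ) (a r c : ℝ) (k : ℤ) : ℝ :=
  if k ≤ K then c * a ^ k / (a - r) else rc g K r (c * a ^ K / (a - r)) (k - K).toNat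

lemma sol_right (g : ℤ → ℝ) (K : ℤ) (a r c : ℝ) (n : ℕ) :
    sol g K a r c (K + n) = rc g K r (c * a ^ K / (a - r)) n := by
  unfold sol
  cases n with
  | zero => simp [rc]
  | succ n =>
    have h : ¬ (K + ((n + 1 : ℕ) : ℤ) ≤ K) := by
      push_cast
      omega
    rw [if_neg h]
    congr 1
    simp

theorem t_HALF1 : S_HALF1 := by
  intro g a r hr hra hg hL hR hup
  obtain ⟨K, c, hc, hK⟩ := hL
  obtain ⟨K', hK'⟩ := hR
  have ha : 0 < a := hr.trans hra
  have har : 0 < a - r := sub_pos.mpr hra
  set F := sol g K a r c with hF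
  have hleft : ∀ k ≤ K, F k = c * a ^ k / (a - r) := by
    intro k hk
    rw [hF]
    unfold sol
    rw [if_pos hk]
  have hrec : ∀ k, F (k + 1) = g k + r * F k := by
    intro k
    by_cases hk : k < K
    · rw [hleft (k + 1) (by omega), hleft k hk.le, hK k hk, zpow_add₀ ha.ne', zpow_one]
      field_simp
      ring
    · obtain ⟨n, hn⟩ : ∃ n : ℕ, k = K + n := ⟨(k - K).toNat, by omega⟩
      have h1 : k + 1 = K + ((n + 1 : ℕ) : ℤ) := by
        rw [hn]
        push_cast
        ring
      rw [h1, hF, sol_right, hn, sol_right]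
      rfl
  have hpos : ∀ k, 0 < F k := by
    intro k
    by_cases hk : k ≤ K
    · rw [hleft k hk]
      positivity
    · obtain ⟨n, hn⟩ : ∃ n : ℕ, k = K + n := ⟨(k - K).toNat, by omega⟩
      rw [hn]
      clear hn hk
      induction n with
      | zero =>
        rw [hleft (K + ((0 : ℕ) : ℤ)) (by simp)]
        positivity
      | succ n ih =>
        have h1 : K + ((n + 1 : ℕ) : ℤ) = (K + n) + 1 := by
          push_cast
          ring
        rw [h1, hrec]
        have := hg (K + n)
        positivity
  have hga : ∀ k, g k ≤ (a - r) * F k := by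
    intro k
    have hle : ∀ k ≤ K, g k ≤ (a - r) * F k := by
      intro k hk
      rw [hleft k hk, mul_div_cancel₀ _ har.ne']
      rcases hk.lt_or_eq with h | h
      · exact (hK k h).le
      · have h1 := hup (k - 1)
        rw [sub_add_cancel, hK (k - 1) (by omega)] at h1
        refine h1.trans (le_of_eq ?_)
        rw [zpow_sub₀ ha.ne', zpow_one]
        field_simp
    by_cases hk : k ≤ K
    · exact hle k hk
    · obtain ⟨n, hn⟩ : ∃ n : ℕ, k = K + n := ⟨(k - K).toNat, by omega⟩
      rw [hn]
      clear hn hk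
      induction n with
      | zero => exact hle _ (by simp)
      | succ n ih =>
        have h1 : K + ((n + 1 : ℕ) : ℤ) = (K + n) + 1 := by
          push_cast
          ring
        rw [h1, hrec]
        have h2 := hup (K + n)
        have h3 := mul_le_mul_of_nonneg_left ih hr.le
        nlinarith [h2, h3]
  have hlow : ∀ k, r * F k ≤ F (k + 1) := by
    intro k
    rw [hrec]
    linarith [hg k]
  refine ⟨F, fun k => (hpos k).le, ⟨0, hpos 0⟩, ?_, ?_, ?_, hlow, ?_⟩
  · refine ⟨K, c / (a - r), by positivity, fun k hk => ?_⟩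
    rw [hleft k hk.le]
    ring
  · set N := max K K' with hN
    refine ⟨N, F (N + 1) / r ^ (N + 1), div_pos (hpos _) (zpow_pos hr _), fun k hk => ?_⟩
    obtain ⟨n, hn⟩ : ∃ n : ℕ, k = (N + 1) + n := ⟨(k - (N + 1)).toNat, by omega⟩
    rw [hn]
    clear hn hk
    induction n with
    | zero =>
      have := (zpow_pos hr (N + 1)).ne'
      simp [div_mul_cancel₀ _ this]
    | succ n ih =>
      have h1 : N + 1 + ((n + 1 : ℕ) : ℤ) = (N + 1 + n) + 1 := by
        push_cast
        ring
      have h2 : g (N + 1 + n) = 0 := hK' _ (by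
        have := le_max_right K K'
        omega)
      rw [h1, hrec, h2, ih, zpow_add₀ hr.ne' (N + 1 + n) 1, zpow_one]
      ring
  · intro k
    rw [hrec]
    linarith [hga k]
  · intro k
    rw [hrec]
    ring

end

end Run7.h109.ZW
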